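import Mathlib

/-!
Decks of induced subgraphs and the number of Hamilton cycles.
-/

namespace Pool.Agent.P.MP_9d0e7f_co.Log

/-- Two graphs on `Fin t` are related when they are isomorphic. -/
def isoSetoid (t : ℕ) : Setoid (SimpleGraph (Fin t)) where
  r A B := Nonempty (A ≃g B)
  iseqv := ⟨fun _ => ⟨SimpleGraph.Iso.refl⟩, fun ⟨f⟩ => ⟨f.symm⟩, fun ⟨f⟩ ⟨g⟩ => ⟨f.trans g⟩⟩

/-- The unlabelled `t`-vertex deck of `G`: the multiset, over all `t`-element vertex sets `S`,
of the isomorphism class of the induced subgraph `G[S]` (its vertices numbered by `Fin t` in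
increasing order). -/
noncomputable def deck {n : ℕ} (G : SimpleGraph (Fin n)) (t : ℕ) :
    Multiset (Quotient (isoSetoid t)) :=
  (Finset.univ : Finset {S : Finset (Fin n) // S.card = t}).val.map
    (fun S => Quotient.mk (isoSetoid t) (G.comap (S.1.orderEmbOfFin S.2)))

/-- The number of Hamilton cycles of `G`, counted as subgraphs. -/
noncomputable def hamCount {n : ℕ} (G : SimpleGraph (Fin n)) : ℕ :=
  Set.ncard {H : G.Subgraph |
    ∃ (v : Fin n) (p : G.Walk v v), p.IsHamiltonianCycle ∧ p.toSubgraph = H}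

end Pool.Agent.P.MP_9d0e7f_co.Log
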