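import Pool.Agent.P.MP_9d0e7f_co.Log.Lat

/-!
The digraph has a directed Hamilton cycle exactly for even parameters.
-/

namespace Pool.Agent.P.MP_9d0e7f_co.Log

open Equiv Finset

variable {m : ℕ} {σ : Perm (Fin (m + 2))} {a : Ar m}

theorem out_one {w : Nd m} (h : Dg σ (gv a 1) w) : w = gv a 0 ∨ w = gv a 2 := by
  rcases w with k | _ | ⟨b, t⟩ <;> simp only [Dg] at h
  · simp at h
  · simp at h
  · fin_cases t <;> simp_all

theorem in_one {v : Nd m} (h : Dg σ v (gv a 1)) : v = gv a 0 ∨ v = gv a 2 := by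
  rcases v with k | _ | ⟨b, t⟩ <;> simp only [Dg] at h
  · simp at h
  · fin_cases t <;> simp_all

theorem in_two {v : Nd m} (h : Dg σ v (gv a 2)) : v = gv a 1 ∨ v = gv a 3 := by
  rcases v with k | _ | ⟨b, t⟩ <;> simp only [Dg] at h
  · simp at h
  · fin_cases t <;> simp_all

theorem in_zero {v : Nd m} (h : Dg σ v (gv a 0)) :
    v = gv a 1 ∨ (v = .inl (σ⁻¹ a.2) ∧ a.2 ∉ a.1.1) := by
  rcases v with k | _ | ⟨b, t⟩ <;> simp only [Dg] at h
  · exact .inr ⟨by simp [h.2.1], h.2.2⟩
  · fin_cases t <;> simp_all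

theorem in_four {v : Nd m} (h : Dg σ v (gv a 4)) :
    v = gv a 0 ∨ hd a = (univ, 1) ∨ ∃ b : Ar m, v = gv b 3 ∧ b.1 = hd a := by
  rcases v with k | _ | ⟨b, t⟩ <;> simp only [Dg] at h
  · simp at h
  · rcases h with ⟨rfl, h⟩ | ⟨rfl, -, -, h⟩ | h
    · fin_cases t <;> simp_all
    · exact .inr (.inr ⟨b, rfl, h.symm⟩)
    · simp at h

theorem out_two {w : Nd m} (h : Dg σ (gv a 2) w) :
    w = gv a 1 ∨ hd a = (univ, 1) ∨ ∃ k, w = .inl k ∧ k.val = a.1.1.card + 1 := by
  rcases w with k | _ | ⟨b, t⟩ <;> simp only [Dg] at h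
  · exact .inr (.inr ⟨k, rfl, h.2⟩)
  · simp at h
  · fin_cases t <;> simp_all

theorem in_pad {v : Nd m} (h : Dg σ v (.inr none)) : ∃ b : Ar m, v = gv b 3 ∧ b.1 = (∅, 1) := by
  rcases v with k | _ | ⟨b, t⟩ <;> simp only [Dg] at h
  exact ⟨b, by rw [h.1], h.2⟩

/-- A directed Hamilton cycle forces the parameter to be even. -/
theorem sign_of_dg (g : Nd m → Nd m) (hD : ∀ v, Dg σ v (g v)) (hinj : Function.Injective g)
    (hc : IsCyc g) : Perm.sign σ = 1 := by
  have hno : ∀ a : Ar m, g (g (gv a 1)) ≠ gv a 1 := by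
    intro a h
    have h1 := hc {gv a 1, g (gv a 1)} ⟨_, Or.inl rfl⟩ (by
      rintro v (rfl | rfl)
      · exact Or.inr rfl
      · exact Or.inl h) (.inl 0)
    rcases h1 with h1 | h1
    · simp at h1
    · rcases out_one (hD (gv a 1)) with h2 | h2 <;> rw [h2] at h1 <;> simp at h1
  have hpred : ∀ w, ∃ v, g v = w ∧ Dg σ v w := by
    intro w
    obtain ⟨v, rfl⟩ := hc.surjective w
    exact ⟨v, rfl, hD v⟩
  let On : Ar m → Prop := fun a => g (gv a 0) = gv a 1 ∧ g (gv a 1) = gv a 2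
  have c1 : ∀ a, g (gv a 3) ≠ gv a 2 → On a := by
    intro a h
    obtain ⟨v, hv, h1⟩ := hpred (gv a 2)
    rcases in_two h1 with rfl | rfl
    · obtain ⟨u, hu, h2⟩ := hpred (gv a 1)
      rcases in_one h2 with rfl | rfl
      · exact ⟨hu, hv⟩
      · exact absurd (by rw [hv, hu]) (hno a)
    · exact absurd hv h
  have c2 : ∀ a, On a → g (.inl (σ⁻¹ a.2)) = gv a 0 ∧ a.2 ∉ a.1.1 := by
    intro a h
    obtain ⟨v, hv, h1⟩ := hpred (gv a 0)
    rcases in_zero h1 with rfl | ⟨rfl, h2⟩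
    · simp [h.2] at hv
    · exact ⟨hv, h2⟩
  have c3 : ∀ a, On a → (hd a).1.card = a.1.1.card + 1 := fun a h => card_insert_of_notMem (c2 a h).2
  have c4 : ∀ a, On a → a.1.1.card + 1 < m + 2 → hd a ≠ (univ, 1) := fun a h h1 h2 => by
    have := c3 a h
    simp [h2] at this
    omega
  have c5 : ∀ a, ∃ b, On a → a.1.1.card + 1 < m + 2 → On b ∧ b.1 = hd a := by
    intro a
    by_cases h : On a ∧ a.1.1.card + 1 < m + 2
    · obtain ⟨v, hv, h1⟩ := hpred (gv a 4)
      rcases in_four h1 with rfl | h2 | ⟨b, rfl, h2⟩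
      · simp [h.1.1] at hv
      · exact absurd h2 (c4 a h.1 h.2)
      · exact ⟨b, fun _ _ => ⟨c1 b (by simp [hv]), h2⟩⟩
    · exact ⟨a, fun h1 h2 => absurd ⟨h1, h2⟩ h⟩
  have c6 : ∀ a, On a → hd a = (univ, 1) ∨ ∃ k, g (gv a 2) = .inl k ∧ k.val = a.1.1.card + 1 := by
    intro a h
    rcases out_two (hD (gv a 2)) with h1 | h1
    · simpa using hinj (h1.trans h.1.symm)
    · exact h1
  choose f hf using c5
  obtain ⟨b, hb, hb0⟩ : ∃ b, On b ∧ b.1 = (∅, 1) := by
    obtain ⟨v, hv, h1⟩ := hpred (.inr none)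
    obtain ⟨b, rfl, h2⟩ := in_pad h1
    exact ⟨b, c1 b (by simp [hv]), h2⟩
  have d1 : ∀ j < m + 2, On (f^[j] b) ∧ (f^[j] b).1.1.card = j := by
    intro j
    induction j with
    | zero => exact fun _ => ⟨hb, by simp [hb0]⟩
    | succ j ih =>
      intro hj
      obtain ⟨h1, h2⟩ := ih (by omega)
      obtain ⟨h3, h4⟩ := hf _ h1 (by omega)
      rw [Function.iterate_succ_apply']
      exact ⟨h3, by rw [h4, c3 _ h1, h2]⟩
  have d2 : ∀ j, j + 1 < m + 2 → (f^[j + 1] b).1 = hd (f^[j] b) := fun j hj => by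
    obtain ⟨h1, h2⟩ := d1 j (by omega)
    rw [Function.iterate_succ_apply']
    exact (hf _ h1 (by omega)).2
  have d3 : ∀ j < m + 2, ∀ i < j, (f^[i] b).2 ∈ (f^[j] b).1.1 := by
    intro j
    induction j with
    | zero => simp
    | succ j ih =>
      intro hj i hi
      rw [d2 j hj]
      rcases Nat.lt_succ_iff_lt_or_eq.1 hi with h | rfl
      · exact mem_insert_of_mem (ih (by omega) i h)
      · exact mem_insert_self _ _
  have d4 : Function.Injective fun j : Fin (m + 2) => (f^[j] b).2 := by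
    intro i j h
    by_contra hne
    rcases (Fin.val_ne_of_ne hne).lt_or_gt with h1 | h1
    · exact (c2 _ (d1 j j.2).1).2 (by simpa only [← h] using d3 j j.2 i h1)
    · exact (c2 _ (d1 i i.2).1).2 (by simpa only [h] using d3 i i.2 j h1)
  set α : Perm (Fin (m + 2)) := Equiv.ofBijective _ (Finite.injective_iff_bijective.1 d4)
  have hα : ∀ j : Fin (m + 2), (f^[j] b).2 = α j := fun _ => rfl
  have d5 : ∀ j : Fin (m + 2), f^[j] b = aa α (sd j) := by
    intro j
    refine Prod.ext ?_ (hα j)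
    induction j using Fin.induction with
    | zero => simp [aa_apply, sd, lo_zero, ap_bot, hb0]
    | succ j ih =>
      have e : f^[j.castSucc] b = aa α (sd j.castSucc) := Prod.ext ih (hα _)
      rw [Fin.val_succ, d2 j (by omega), ← Fin.val_castSucc j, e, hd_aa α (sd_ok _), hd_sd]
      rfl
  have d6 : Perm.sign α = 1 := by
    obtain ⟨h1, h2⟩ := d1 (m + 1) (by omega)
    rcases c6 _ h1 with h | ⟨k, -, h⟩
    · have e := d5 (Fin.last _)
      rw [Fin.val_last] at e
      rw [e, hd_aa α (sd_ok _), hd_sd, Fin.val_last, lo_top, ap_top] at h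
      exact congrArg Prod.snd h
    · omega
  set τ : Perm (Fin (m + 2)) := finRotate _ * α⁻¹ * σ with hτ
  have hcyc : ∀ k, τ.SameCycle k 0 := by
    intro k
    by_contra hk
    have h1 := hc {v | ∃ j, ¬ τ.SameCycle j 0 ∧ (v = .inl j ∨ v = gv (f^[α⁻¹ (σ j)] b) 0 ∨
        v = gv (f^[α⁻¹ (σ j)] b) 1 ∨ v = gv (f^[α⁻¹ (σ j)] b) 2)} ⟨.inl k, k, hk, .inl rfl⟩ (by
      rintro v ⟨j, hj, hv⟩
      obtain ⟨h1, h2⟩ := d1 _ (α⁻¹ (σ j)).2
      rcases hv with rfl | rfl | rfl | rfl
      · refine ⟨j, hj, .inr (.inl ?_)⟩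
        have := (c2 _ h1).1
        rwa [hα, show σ⁻¹ (α (α⁻¹ (σ j))) = j by simp] at this
      · exact ⟨j, hj, .inr (.inr (.inl h1.1))⟩
      · exact ⟨j, hj, .inr (.inr (.inr h1.2))⟩
      · have e : τ j = α⁻¹ (σ j) + 1 := by simp [hτ]
        have hl : α⁻¹ (σ j) ≠ Fin.last _ := fun h => hj ⟨1, by simp [e, h]⟩
        have hl' := Fin.val_lt_last hl
        refine ⟨τ j, by simpa using hj, .inl ?_⟩
        rcases c6 _ h1 with h | ⟨k, h3, h4⟩
        · exact absurd h (c4 _ h1 (by omega))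
        · rw [h3, e, Fin.ext (h4.trans _)]
          rw [h2, Fin.val_add_one_of_lt (Fin.lt_last_iff_ne_last.2 hl)]) (.inl 0)
    obtain ⟨j, hj, h | h | h | h⟩ := h1
    · exact hj (Sum.inl.inj h ▸ Perm.SameCycle.refl _ _)
    all_goals simp at h
  have h2 := sign_of_sameCycle τ fun k => (hcyc k).trans (hcyc _).symm
  simpa [hτ, d6, pow_succ] using h2

/-- For the identity there is a directed Hamilton cycle. -/
theorem exists_dg (m : ℕ) : ∃ (s : Nd m → Nd m) (v : Nd m),
    (∀ u, Dg 1 u (s u)) ∧ ∀ w, Relation.TransGen (fun a b => s a = b) v w := by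
  classical
  obtain ⟨N, hN⟩ : ∃ N, Fintype.card (Ar m) = N + 1 :=
    Nat.exists_eq_succ_of_ne_zero Fintype.card_ne_zero
  let e : Ar m ≃ Fin (N + 1) := Fintype.equivFinOfCardEq hN
  let nx : Ar m → Ar m := fun a => e.symm (e a + 1)
  let s : Nd m → Nd m := fun u =>
    match u with
    | .inl k => gv (sd k) 0
    | .inr none => .inl 0
    | .inr (some (a, t)) =>
      if a = sd a.2 then
        ![gv a 1, gv a 2, if a.2 = Fin.last _ then gv a 4 else .inl (a.2 + 1),
          if a.2 = 0 then .inr none else gv (sd (a.2 - 1)) 4, gv (nx (sd (a.2 + 1))) 3] t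
      else ![gv a 4, gv a 0, gv a 1, gv a 2, gv (nx a) 3] t
  have on : ∀ j t, s (gv (sd j) t) = ![gv (sd j) 1, gv (sd j) 2,
      if j = Fin.last _ then gv (sd j) 4 else .inl (j + 1),
      if j = 0 then .inr none else gv (sd (j - 1)) 4, gv (nx (sd (j + 1))) 3] t :=
    fun j t => if_pos rfl
  have off : ∀ a t, a ≠ sd a.2 → s (gv a t) = ![gv a 4, gv a 0, gv a 1, gv a 2, gv (nx a) 3] t :=
    fun a t h => if_neg h
  refine ⟨s, gv (sd 0) 3, ?_, ?_⟩
  · rintro (k | _ | ⟨a, t⟩)
    · exact ⟨rfl, rfl, sd_ok k⟩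
    · rfl
    · by_cases h : a = sd a.2
      · obtain ⟨j, rfl⟩ : ∃ j, a = sd j := ⟨_, h⟩
        rw [on]
        fin_cases t
        · simp [Dg]
        · simp [Dg]
        · by_cases hj : j = Fin.last _
          · simp [Dg, hj, sd_ok, hd_sd, lo_top]
          · simp [Dg, hj, sd, card_lo, Fin.val_add_one_of_lt (Fin.lt_last_iff_ne_last.2 hj)]
        · by_cases hj : j = 0
          · simp [Dg, hj, sd, lo_zero]
          · have : (j - 1).val + 1 = j.val := by
              have : j.val ≠ 0 := Fin.val_ne_of_ne hj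
              rw [Fin.val_sub_one_of_ne_zero hj]
              omega
            simp [Dg, hj, sd_ok, hd_sd, this]
            rfl
        · simp [Dg]
      · rw [off a t h]
        fin_cases t <;> simp [Dg]
  · let Q : Nd m → Nd m → Prop := Relation.TransGen fun a b => s a = b
    have step : ∀ {v a b}, Q v a → s a = b → Q v b := fun ha hab => ha.tail hab
    have hA : ∀ j, Q (gv (sd 0) 3) (.inl j) := by
      intro j
      induction j using Fin.induction with
      | zero => exact step (a := .inr none) (.single (by simp [on])) rfl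
      | succ j ih =>
        refine step (step (step (step ih rfl) (on _ 0)) (on _ 1)) ((on _ 2).trans ?_)
        simp [(Fin.castSucc_lt_last j).ne]
    have hA2 : ∀ j, Q (gv (sd 0) 3) (gv (sd j) 2) := fun j =>
      step (step (step (hA j) rfl) (on _ 0)) (on _ 1)
    have hB : ∀ j, Q (gv (sd (j + 1)) 3) (gv (sd j) 4) := by
      intro j
      by_cases hj : j = Fin.last _
      · subst hj
        rw [Fin.last_add_one]
        exact step (hA2 (Fin.last _)) (by simp [on])
      · have : j + 1 ≠ 0 := fun h => hj (by rw [← add_left_inj 1, h, Fin.last_add_one])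
        exact .single (by simp [on, this])
    have hC : ∀ a, Q (gv a 3) (gv (nx a) 3) := by
      intro a
      by_cases h : a = sd a.2
      · obtain ⟨j, rfl⟩ : ∃ j, a = sd (j + 1) := ⟨a.2 - 1, by simpa using h⟩
        exact step (hB j) (on _ 4)
      · exact step (step (step (step (.single (off a 3 h)) (off a 2 h)) (off a 1 h)) (off a 0 h))
          (off a 4 h)
    have hD : ∀ a, Q (gv (sd 0) 3) (gv a 3) := fun a => by
      have := isCyc_add_one N {i | Q (gv (sd 0) 3) (gv (e.symm i) 3)} ⟨_, hC _⟩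
        (fun i hi => by simpa [nx] using (hi.trans (hC _) : Q _ _)) (e a)
      simpa using this
    rintro (k | _ | ⟨a, t⟩)
    · exact hA k
    · exact .single (by simp [on])
    · by_cases h : a = sd a.2
      · obtain ⟨j, rfl⟩ : ∃ j, a = sd j := ⟨_, h⟩
        fin_cases t
        exacts [step (hA j) rfl, step (step (hA j) rfl) (on _ 0), hA2 j, hD _, (hD _).trans (hB j)]
      · have h2 := step (hD a) (off a 3 h)
        have h1 := step h2 (off a 2 h)
        have h0 := step h1 (off a 1 h)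
        fin_cases t
        exacts [h0, h1, h2, hD a, step h0 (off a 0 h)]

end Pool.Agent.P.MP_9d0e7f_co.Log
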