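import Pool.Agent.P.MP_9d0e7f_co.Deck

/-!
The orientation double cover of the Boolean lattice and the digraph built on it.
-/

namespace Pool.Agent.P.MP_9d0e7f_co.Log

open Equiv Finset

variable {m : ℕ}

/-- The sign of appending `x` to the increasing list of `T`. -/
def cs (T : Finset (Fin (m + 2))) (x : Fin (m + 2)) : ℤˣ := ∏ y ∈ T, if x < y then -1 else 1

/-- The sign of the inversions of `γ` inside `T`. -/
def io (γ : Perm (Fin (m + 2))) (T : Finset (Fin (m + 2))) : ℤˣ :=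
  ∏ z ∈ T, ∏ y ∈ T, if y < z ∧ γ z < γ y then -1 else 1

theorem io_insert (γ : Perm (Fin (m + 2))) {T : Finset (Fin (m + 2))} {x : Fin (m + 2)}
    (hx : x ∉ T) : cs T x * io γ (insert x T) = io γ T * cs (T.map γ.toEmbedding) (γ x) := by
  simp only [io, cs, prod_insert hx, prod_mul_distrib, prod_map, lt_irrefl, false_and, if_false,
    one_mul, coe_toEmbedding]
  rw [← mul_assoc, ← mul_assoc, mul_comm, ← prod_mul_distrib, ← prod_mul_distrib]
  congr 1
  refine prod_congr rfl fun y hy => ?_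
  have h1 : x ≠ y := fun h => hx (h ▸ hy)
  have h2 : γ x ≠ γ y := γ.injective.ne h1
  rcases h1.lt_or_gt with a | a <;> rcases h2.lt_or_gt with b | b <;>
    simp [a, b, a.not_gt, b.not_gt]

theorem io_univ (γ : Perm (Fin (m + 2))) : io γ univ = Perm.sign γ := by
  rw [γ.sign_eq_prod_prod_Iio, io]
  refine prod_congr rfl fun z _ => ?_
  rw [← filter_gt_eq_Iio, prod_filter]
  refine prod_congr rfl fun y _ => ?_
  by_cases a : y < z
  · rcases (γ.injective.ne a.ne).lt_or_gt with b | b <;> simp [a, b, b.not_gt]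
  · simp [a]

/-- Oriented subsets. -/
abbrev Pt (m : ℕ) : Type := Finset (Fin (m + 2)) × ℤˣ

/-- Arcs between oriented subsets: the tail and the new element. -/
abbrev Ar (m : ℕ) : Type := Pt m × Fin (m + 2)

/-- The head of an arc. -/
def hd (a : Ar m) : Pt m := (insert a.2 a.1.1, a.1.2 * cs a.1.1 a.2)

/-- The action on oriented subsets. -/
def ap (γ : Perm (Fin (m + 2))) : Perm (Pt m) :=
  Equiv.prodShear γ.finsetCongr fun T => Equiv.mulRight (io γ T)

theorem ap_apply (γ : Perm (Fin (m + 2))) (p : Pt m) :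
    ap γ p = (p.1.map γ.toEmbedding, p.2 * io γ p.1) := rfl

/-- The action on arcs. -/
def aa (γ : Perm (Fin (m + 2))) : Perm (Ar m) := Equiv.prodCongr (ap γ) γ

theorem aa_apply (γ : Perm (Fin (m + 2))) (a : Ar m) : aa γ a = (ap γ a.1, γ a.2) := rfl

theorem hd_aa (γ : Perm (Fin (m + 2))) {a : Ar m} (h : a.2 ∉ a.1.1) :
    hd (aa γ a) = ap γ (hd a) := by
  simp only [hd, aa_apply, ap_apply, map_insert, coe_toEmbedding, mul_assoc, io_insert γ h]

theorem ok_aa (γ : Perm (Fin (m + 2))) (a : Ar m) : (aa γ a).2 ∉ (aa γ a).1.1 ↔ a.2 ∉ a.1.1 := by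
  simp [aa_apply, ap_apply]

theorem ap_bot (γ : Perm (Fin (m + 2))) : ap γ (∅, 1) = (∅, 1) := by simp [ap_apply, io]

theorem ap_top (γ : Perm (Fin (m + 2))) : ap γ (univ, 1) = (univ, Perm.sign γ) := by
  simp [ap_apply, io_univ]

/-- The first `j` elements. -/
def lo (m j : ℕ) : Finset (Fin (m + 2)) := univ.filter fun y => y.val < j

/-- The arcs of the standard chain. -/
def sd (j : Fin (m + 2)) : Ar m := ((lo m j, 1), j)

theorem sd_ok (j : Fin (m + 2)) : (sd j).2 ∉ (sd j).1.1 := by simp [sd, lo]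

theorem hd_sd (j : Fin (m + 2)) : hd (sd j) = (lo m (j + 1), 1) := by
  refine Prod.ext ?_ ?_
  · ext y
    simp only [hd, sd, lo, mem_insert, mem_filter, mem_univ, true_and, Fin.ext_iff]
    omega
  · simp only [hd, sd, cs, one_mul]
    refine prod_eq_one fun y hy => if_neg ?_
    simp only [lo, mem_filter] at hy
    exact not_lt.2 (le_of_lt hy.2)

theorem lo_zero : lo m 0 = ∅ := by simp [lo]

theorem lo_top : lo m (m + 2) = univ := by
  ext y
  simp [lo]

theorem card_lo (j : Fin (m + 2)) : (lo m j).card = j := by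
  rw [show lo m j = Iio j by ext y; simp [lo], Fin.card_Iio]

/-- A padding vertex and five vertices for every arc. -/
abbrev Co (m : ℕ) : Type := Option (Ar m × Fin 5)

/-- Rows and core vertices. -/
abbrev Nd (m : ℕ) : Type := Fin (m + 2) ⊕ Co m

/-- The vertex number `t` of the gadget of the arc `a`. -/
abbrev gv (a : Ar m) (t : Fin 5) : Nd m := .inr (some (a, t))

/-- The arcs of the digraph. -/
def Dg (σ : Perm (Fin (m + 2))) : Nd m → Nd m → Prop
  | .inl _, .inl _ => False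
  | .inl _, .inr none => False
  | .inl k, .inr (some d) => d.2 = 0 ∧ d.1.2 = σ k ∧ d.1.2 ∉ d.1.1.1
  | .inr none, .inl k => k = 0
  | .inr none, .inr _ => False
  | .inr (some c), .inl k => c.2 = 2 ∧ k.val = c.1.1.1.card + 1
  | .inr (some c), .inr none => c.2 = 3 ∧ c.1.1 = (∅, 1)
  | .inr (some c), .inr (some d) =>
      (c.1 = d.1 ∧ ((c.2 = 3 ∧ d.2 = 2) ∨ (c.2 = 2 ∧ d.2 = 1) ∨ (c.2 = 1 ∧ d.2 = 0) ∨
        (c.2 = 0 ∧ d.2 = 4) ∨ (c.2 = 0 ∧ d.2 = 1) ∨ (c.2 = 1 ∧ d.2 = 2) ∨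
        (c.2 = 2 ∧ d.2 = 4 ∧ d.1.2 ∉ d.1.1.1 ∧ hd d.1 = (univ, 1)))) ∨
      (c.2 = 3 ∧ d.2 = 4 ∧ d.1.2 ∉ d.1.1.1 ∧ hd d.1 = c.1.1) ∨ (c.2 = 4 ∧ d.2 = 3)

/-- Permuting rows and gadgets. -/
def nm (ρ γ : Perm (Fin (m + 2))) : Perm (Nd m) :=
  Equiv.sumCongr ρ (Equiv.optionCongr (Equiv.prodCongr (aa γ) (Equiv.refl _)))

@[simp] theorem nm_inl (ρ γ : Perm (Fin (m + 2))) (k : Fin (m + 2)) :
    nm ρ γ (.inl k) = .inl (ρ k) := rfl

@[simp] theorem nm_none (ρ γ : Perm (Fin (m + 2))) : nm ρ γ (.inr none) = .inr none := rfl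

@[simp] theorem nm_some (ρ γ : Perm (Fin (m + 2))) (c : Ar m × Fin 5) :
    nm ρ γ (.inr (some c)) = .inr (some (aa γ c.1, c.2)) := rfl

theorem dg_nm {σ σ' ρ γ : Perm (Fin (m + 2))} (h : γ = σ' * ρ * σ⁻¹) (hs : Perm.sign γ = 1)
    (v w : Nd m) : Dg σ v w ↔ Dg σ' (nm ρ γ v) (nm 1 γ w) := by
  rcases v with k | _ | c <;> rcases w with k' | _ | d <;>
    simp only [nm_inl, nm_none, nm_some, Dg, Perm.coe_one, id]
  · rw [ok_aa, aa_apply, show σ' (ρ k) = γ (σ k) by simp [h], γ.apply_eq_iff_eq]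
  · simp [aa_apply, ap_apply]
  · rw [aa_apply, ← ap_bot γ, (ap γ).apply_eq_iff_eq, ap_bot]
  · have h1 : ∀ p, ((aa γ d.1).2 ∉ (aa γ d.1).1.1 ∧ hd (aa γ d.1) = ap γ p) ↔
        (d.1.2 ∉ d.1.1.1 ∧ hd d.1 = p) := fun p => by
      rw [ok_aa]
      exact and_congr_right fun a => by rw [hd_aa γ a, (ap γ).apply_eq_iff_eq]
    have h2 := h1 (univ, 1)
    rw [ap_top, hs] at h2
    rw [h2, show (aa γ c.1).1 = ap γ c.1.1 from rfl, h1, (aa γ).apply_eq_iff_eq]

end Pool.Agent.P.MP_9d0e7f_co.Log
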