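import Pool.Agent.P.MP_9d0e7f_co.Log.Swap
import Pool.Agent.P.MP_9d0e7f_co.Log.Defs

/-!
The choice of the parameters.
-/

namespace Pool.Agent.P.MP_9d0e7f_co.Log

open Filter

theorem deck_eq {n t : ℕ} {G G' : SimpleGraph (Fin n)} (h : Swappable G G' t) :
    deck G t = deck G' t := by
  obtain ⟨Φ, h1, h2⟩ := h
  let φ : {S : Finset (Fin n) // S.card = t} → {S : Finset (Fin n) // S.card = t} :=
    fun S => ⟨S.1.map (Φ S.1).toEmbedding, by simpa using S.2⟩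
  have hinj : Function.Injective φ := fun S T hST =>
    Subtype.ext (h1 _ _ S.2 T.2 (congrArg Subtype.val hST))
  let e := Equiv.ofBijective φ (Finite.injective_iff_bijective.1 hinj)
  unfold deck
  conv_rhs => rw [← Multiset.map_univ_val_equiv e, Multiset.map_map]
  refine Multiset.map_congr rfl fun S _ => Quotient.sound ?_
  let a : Fin t ≃ S.1 := (S.1.orderIsoOfFin S.2).toEquiv
  let b : Fin t ≃ (φ S).1 := ((φ S).1.orderIsoOfFin (φ S).2).toEquiv
  let c : S.1 ≃ (φ S).1 := (Φ S.1).subtypeEquiv (fun u => by simp [φ])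
  refine ⟨⟨(a.trans c).trans b.symm, fun {i j} => ?_⟩⟩
  have hb : ∀ x : (φ S).1, (φ S).1.orderEmbOfFin (φ S).2 (b.symm x) = x.1 := by
    intro x
    rw [← Finset.coe_orderIsoOfFin_apply]
    exact congrArg Subtype.val (b.apply_symm_apply x)
  show G'.Adj ((φ S).1.orderEmbOfFin (φ S).2 (b.symm (c (a i))))
    ((φ S).1.orderEmbOfFin (φ S).2 (b.symm (c (a j)))) ↔ G.Adj (a i).1 (a j).1
  rw [hb, hb]
  exact (h2 S.1 S.2 _ (a i).2 _ (a j).2).symm

theorem hamCount_eq_zero {n : ℕ} {G : SimpleGraph (Fin n)} :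
    hamCount G = 0 ↔ ¬ ∃ (v : Fin n) (p : G.Walk v v), p.IsHamiltonianCycle := by
  unfold hamCount
  rw [Set.ncard_eq_zero (Set.toFinite _), Set.eq_empty_iff_forall_notMem]
  constructor
  · rintro h ⟨v, p, hp⟩
    exact h _ ⟨v, p, hp, rfl⟩
  · rintro h H ⟨v, p, hp, -⟩
    exact h ⟨v, p, hp⟩

theorem small {θ c : ℝ} (hθ : θ < 1) (hc : 0 < c) :
    ∀ᶠ n : ℕ in atTop, Real.logb 2 n ^ 2 * (n : ℝ) ^ θ < c * n := by
  have h := (isLittleO_log_rpow_rpow_atTop 2 (sub_pos.2 hθ)).def (c := c / 8) (by positivity)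
  filter_upwards [tendsto_natCast_atTop_atTop.eventually h, eventually_ge_atTop 1] with n h1 h2
  have h3 : (0 : ℝ) < n := by exact_mod_cast h2
  have h4 : 0 ≤ Real.log n := Real.log_natCast_nonneg n
  rw [Real.norm_of_nonneg (by positivity), Real.norm_of_nonneg (by positivity), Real.rpow_two] at h1
  have h5 : Real.logb 2 n ≤ 2 * Real.log n := by
    rw [Real.logb, div_le_iff₀ (Real.log_pos one_lt_two)]
    nlinarith [Real.log_two_gt_d9]
  have h6 := pow_le_pow_left₀ (Real.logb_nonneg one_lt_two (by exact_mod_cast h2)) h5 2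
  have h7 : (n : ℝ) ^ (1 - θ) * (n : ℝ) ^ θ = n := by rw [← Real.rpow_add h3]; simp
  have h8 : (0 : ℝ) < (n : ℝ) ^ θ := by positivity
  have h9 : Real.logb 2 n ^ 2 ≤ c / 2 * (n : ℝ) ^ (1 - θ) := by nlinarith
  nlinarith [mul_le_mul_of_nonneg_right h9 h8.le, mul_pos hc h3]

theorem main (ε : ℝ) (hε : 0 < ε) : ∀ᶠ n : ℕ in atTop, ∃ G G' : SimpleGraph (Fin n),
    (∀ t : ℕ, (t : ℝ) ≤ n - (1 + ε) * n / Real.logb 2 n → deck G t = deck G' t) ∧
      0 < hamCount G ∧ hamCount G' = 0 := by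
  have he : 1 < 1 + ε / 2 := by linarith
  have hL : Tendsto (fun n : ℕ => Real.logb 2 n) atTop atTop :=
    (Real.tendsto_logb_atTop one_lt_two).comp tendsto_natCast_atTop_atTop
  filter_upwards [small (inv_lt_one_of_one_lt₀ he) (c := min ε 1 / 288) (by positivity),
    hL.eventually_ge_atTop (2 * (1 + ε / 2)), eventually_ge_atTop 1] with n h1 h2 h3
  have hn : (0 : ℝ) < n := by exact_mod_cast h3
  set L := Real.logb 2 n with hLd
  have hL1 : 1 ≤ L := by linarith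
  have hx : 2 ≤ L / (1 + ε / 2) := (le_div_iff₀ (by linarith)).2 h2
  obtain ⟨m, hm⟩ : ∃ m, ⌈L / (1 + ε / 2)⌉₊ = m + 2 :=
    Nat.exists_eq_add_of_le' (by exact_mod_cast hx.trans (Nat.le_ceil _))
  have r1 : L / (1 + ε / 2) ≤ ((m + 2 : ℕ) : ℝ) := hm ▸ Nat.le_ceil _
  have r2 : ((m + 2 : ℕ) : ℝ) ≤ L / (1 + ε / 2) + 1 :=
    hm ▸ (Nat.ceil_lt_add_one (by linarith)).le
  have r3 : ((m + 2 : ℕ) : ℝ) ≤ 2 * L := by linarith [div_le_self (by linarith : 0 ≤ L) he.le]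
  have r4 : (2 : ℝ) ^ (m + 2) ≤ 2 * (n : ℝ) ^ (1 + ε / 2)⁻¹ := by
    rw [← Real.rpow_natCast]
    refine (Real.rpow_le_rpow_of_exponent_le one_le_two r2).trans_eq ?_
    rw [Real.rpow_add two_pos, Real.rpow_one, div_eq_mul_inv, Real.rpow_mul zero_le_two, hLd,
      Real.rpow_logb two_pos (by norm_num) hn, mul_comm]
  set K := 3 + 30 * (m + 2) * 2 ^ (m + 2) with hK
  have k1 : K + 3 * (m + 2) ≤ 36 * ((m + 2) * 2 ^ (m + 2)) := by
    have := Nat.le_mul_of_pos_right (m + 2) (Nat.two_pow_pos (m + 2))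
    rw [hK, mul_assoc]
    omega
  have k2 : ((K + 3 * (m + 2) : ℕ) : ℝ) * L < min ε 1 / 2 * n := by
    have a := (Nat.cast_le (α := ℝ)).2 k1
    rw [Nat.cast_mul, Nat.cast_mul, Nat.cast_pow, Nat.cast_ofNat, Nat.cast_ofNat] at a
    have b := mul_le_mul r3 r4 (by positivity) (by linarith)
    nlinarith [mul_le_mul_of_nonneg_right (a.trans (mul_le_mul_of_nonneg_left b (by norm_num)))
      (by linarith : 0 ≤ L)]
  have k0 : (0 : ℝ) ≤ ((K + 3 * (m + 2) : ℕ) : ℝ) := Nat.cast_nonneg _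
  have k3 : K + 3 * (m + 2) ≤ n := by
    have := min_le_right ε 1
    exact_mod_cast (show ((K + 3 * (m + 2) : ℕ) : ℝ) ≤ n by nlinarith)
  have e1 := Nat.div_add_mod (n - K) (m + 2)
  have e2 := Nat.mod_lt (n - K) (show 0 < m + 2 by omega)
  set l := (n - K) / (m + 2)
  set s := (n - K) % (m + 2)
  have hl : 3 ≤ l := (Nat.le_div_iff_mul_le (by omega)).2 (by omega)
  obtain ⟨G, G', hsw, hG, hG'⟩ := exists_pair m l s n hl (by omega)
  refine ⟨G, G', fun t ht => deck_eq (hsw t ?_),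
    Nat.pos_of_ne_zero fun h => hamCount_eq_zero.1 h hG, hamCount_eq_zero.2 hG'⟩
  by_contra hc
  have f1 : n ≤ t + l + (K + 3 * (m + 2)) := by
    have : (m + 2) * l = (m + 1) * l + l := by ring
    omega
  have f2 := (Nat.cast_le (α := ℝ)).2 f1
  rw [Nat.cast_add, Nat.cast_add] at f2
  have f3 : ((m + 2 : ℕ) : ℝ) * l ≤ n := by exact_mod_cast (show (m + 2) * l ≤ n by omega)
  have f4 : L * l ≤ (1 + ε / 2) * n := by
    have a := (div_le_iff₀ (by linarith)).1 r1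
    have b : (0 : ℝ) ≤ l := Nat.cast_nonneg l
    nlinarith [mul_le_mul_of_nonneg_right a b]
  have f5 : (1 + ε) * n / L ≤ l + ((K + 3 * (m + 2) : ℕ) : ℝ) := by linarith
  rw [div_le_iff₀ (by linarith)] at f5
  nlinarith [mul_le_mul_of_nonneg_right (min_le_left ε 1) hn.le]

end Pool.Agent.P.MP_9d0e7f_co.Log
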