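import Pool.Agent.P.MP_9d0e7f_co.Log.Ham

/-!
The two subdivided graphs have the same decks.
-/

namespace Pool.Agent.P.MP_9d0e7f_co.Log

open Equiv SimpleGraph

/-- Rows are long, the padding vertex is free, gadget vertices are short. -/
def nl (m l s : ℕ) : Nd m → ℕ
  | .inl _ => l
  | .inr none => s + 3
  | .inr (some _) => 3

theorem nl_nm {m l s : ℕ} (ρ γ : Perm (Fin (m + 2))) (v : Nd m) :
    nl m l s (nm ρ γ v) = nl m l s v := by
  rcases v with k | _ | c <;> rfl

theorem three_le_nl {m l : ℕ} (s : ℕ) (hl : 3 ≤ l) : ∀ v, 3 ≤ nl m l s v := by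
  rintro (k | _ | c)
  exacts [hl, Nat.le_add_left _ _, le_rfl]

section

variable {m l s : ℕ} {σ σ' : Perm (Fin (m + 2))}

/-- The permutation compensating a transposition of two row ends. -/
def comp (σ σ' : Perm (Fin (m + 2))) (i j : Fin (m + 2)) : Perm (Fin (m + 2)) :=
  σ' * Equiv.swap i j * σ⁻¹

/-- Swap the tails of rows `i`, `j` from column `p` on, and compensate in the core. -/
noncomputable def tailSwap (l s : ℕ) (σ σ' : Perm (Fin (m + 2)))
    (c : ℕ × Fin (m + 2) × Fin (m + 2)) : Perm (Vert (nl m l s)) :=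
  colMap (fun q => nm (if c.1 ≤ q then Equiv.swap c.2.1 c.2.2 else 1) (comp σ σ' c.2.1 c.2.2))
    (fun _ _ => nl_nm _ _ _)

theorem tailSwap_col (c : ℕ × Fin (m + 2) × Fin (m + 2)) (u : Vert (nl m l s)) :
    (tailSwap l s σ σ' c u).1.2 = u.1.2 := rfl

theorem tailSwap_lo {p : ℕ} {i j : Fin (m + 2)} {u : Vert (nl m l s)}
    (hi : u.1 ≠ (.inl i, p)) (hj : u.1 ≠ (.inl j, p)) (hp : u.1.2 ≤ p) :
    (tailSwap l s σ σ' (p, i, j) u).1.1 = nm 1 (comp σ σ' i j) u.1.1 := by
  obtain ⟨⟨v, q⟩, hq⟩ := u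
  show nm (if p ≤ q then Equiv.swap i j else 1) (comp σ σ' i j) v = _
  split_ifs with h
  · have : q = p := le_antisymm hp h
    subst this
    rcases v with k | c
    · have h1 : k ≠ i := fun h => hi (by rw [h])
      have h2 : k ≠ j := fun h => hj (by rw [h])
      simp [Equiv.swap_apply_of_ne_of_ne h1 h2]
    · rfl
  · rfl

theorem tailSwap_hi {p : ℕ} {i j : Fin (m + 2)} {u : Vert (nl m l s)} (hp : p ≤ u.1.2) :
    (tailSwap l s σ σ' (p, i, j) u).1.1 = nm (Equiv.swap i j) (comp σ σ' i j) u.1.1 := by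
  obtain ⟨⟨v, q⟩, hq⟩ := u
  show nm (if p ≤ q then Equiv.swap i j else 1) (comp σ σ' i j) v = _
  rw [if_pos hp]

theorem arc_tailSwap (hs : Perm.sign σ' = -Perm.sign σ) {p : ℕ} (hp : p < l)
    {i j : Fin (m + 2)} (hij : i ≠ j) {u w : Vert (nl m l s)}
    (hui : u.1 ≠ (.inl i, p)) (huj : u.1 ≠ (.inl j, p))
    (hwi : w.1 ≠ (.inl i, p)) (hwj : w.1 ≠ (.inl j, p)) :
    Arc (Dg σ) (nl m l s) u w ↔
      Arc (Dg σ') (nl m l s) (tailSwap l s σ σ' (p, i, j) u) (tailSwap l s σ σ' (p, i, j) w) := by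
  have hγ : Perm.sign (comp σ σ' i j) = 1 := by simp [comp, hs, Perm.sign_swap hij]
  unfold Arc
  simp only [tailSwap_col]
  refine or_congr (and_congr_left fun h => ?_) ?_
  · by_cases hc : w.1.2 ≤ p
    · rw [tailSwap_lo hui huj (by omega), tailSwap_lo hwi hwj hc]
      simp
    · rw [tailSwap_hi (by omega), tailSwap_hi (by omega)]
      simp
  · have h1 : nl m l s (tailSwap l s σ σ' (p, i, j) u).1.1 = nl m l s u.1.1 := nl_nm _ _ _
    rw [h1]
    refine and_congr_left fun h => ?_
    rw [tailSwap_lo hwi hwj (by omega)]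
    have h2 : (tailSwap l s σ σ' (p, i, j) u).1.1 =
        nm (Equiv.swap i j) (comp σ σ' i j) u.1.1 := by
      obtain ⟨⟨v, q⟩, hq⟩ := u
      rcases v with k | c
      · apply tailSwap_hi
        simp only [nl] at h
        show p ≤ q
        omega
      · rfl
    rw [h2]
    exact dg_nm rfl hγ _ _

/-- Row `k` is missing from `S` in column `q`. -/
def Missing (S : Finset (Vert (nl m l s))) (k : Fin (m + 2)) (q : ℕ) : Prop :=
  ∀ u ∈ S, u.1 ≠ (.inl k, q)

/-- Two rows are missing in column `q`. -/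
def Good (S : Finset (Vert (nl m l s))) (q : ℕ) : Prop :=
  q < l ∧ ∃ x : Fin (m + 2) × Fin (m + 2), x.1 ≠ x.2 ∧ Missing S x.1 q ∧ Missing S x.2 q

theorem exists_good (S : Finset (Vert (nl m l s))) (hS : S.card < (m + 1) * l) :
    ∃ q, Good S q := by
  classical
  by_contra hcon
  have hq : ∀ q ∈ Finset.range l, m + 1 ≤ (S.filter (fun u => u.1.2 = q)).card := by
    intro q hq
    have hq' : q < l := Finset.mem_range.1 hq
    have h1 : (Finset.univ.filter (fun k => Missing S k q)).card ≤ 1 := by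
      rw [Finset.card_le_one]
      intro a ha b hb
      by_contra hab
      exact hcon ⟨q, hq', (a, b), hab, by simpa using ha, by simpa using hb⟩
    have h2 := Finset.card_filter_add_card_filter_not (s := Finset.univ)
      (fun k : Fin (m + 2) => Missing S k q)
    simp only [Finset.card_univ, Fintype.card_fin] at h2
    have h3 : (Finset.univ.filter (fun k => ¬ Missing S k q)).card ≤
        (S.filter (fun u => u.1.2 = q)).card := by
      refine Finset.card_le_card_of_injOn
        (fun k => (⟨(.inl k, q), hq'⟩ : Vert (nl m l s))) ?_ ?_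
      · intro k hk
        simp only [Missing, Finset.coe_filter, Finset.mem_univ, true_and, Set.mem_ofPred_eq,
          not_forall, not_not] at hk
        obtain ⟨u, hu, huk⟩ := hk
        have : (⟨(.inl k, q), hq'⟩ : Vert (nl m l s)) = u := Subtype.ext huk.symm
        simp only [Finset.coe_filter, Set.mem_ofPred_eq]
        exact ⟨this ▸ hu, trivial⟩
      · intro a _ b _ hab
        have h6 : (Sum.inl a : Nd m) = Sum.inl b := congrArg (fun z : Vert (nl m l s) => z.1.1) hab
        simpa using h6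
    omega
  have h4 : ∑ q ∈ Finset.range l, (S.filter (fun u => u.1.2 = q)).card ≤ S.card := by
    rw [Finset.sum_card_fiberwise_eq_card_filter]
    exact Finset.card_filter_le _ _
  have h5 := Finset.sum_le_sum hq
  simp only [Finset.sum_const, Finset.card_range, smul_eq_mul] at h5
  rw [mul_comm] at hS
  omega

/-- The column and the two rows at which a set is cut. -/
noncomputable def cls (S : Finset (Vert (nl m l s))) : ℕ × Fin (m + 2) × Fin (m + 2) :=
  (sInf {q | Good S q}, Classical.epsilon (fun x : Fin (m + 2) × Fin (m + 2) =>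
    x.1 ≠ x.2 ∧ Missing S x.1 (sInf {q | Good S q}) ∧ Missing S x.2 (sInf {q | Good S q})))

theorem cls_spec {S : Finset (Vert (nl m l s))} (h : ∃ q, Good S q) :
    (cls S).1 < l ∧ (cls S).2.1 ≠ (cls S).2.2 ∧ Missing S (cls S).2.1 (cls S).1 ∧
      Missing S (cls S).2.2 (cls S).1 := by
  have h1 : Good S (sInf {q | Good S q}) := Nat.sInf_mem (s := {q | Good S q}) h
  exact ⟨h1.1, Classical.epsilon_spec h1.2⟩

theorem missing_map {S : Finset (Vert (nl m l s))} {p : ℕ} {i j : Fin (m + 2)}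
    (hi : Missing S i p) (hj : Missing S j p) (k : Fin (m + 2)) {q : ℕ} (hq : q ≤ p) :
    Missing (S.map (tailSwap l s σ σ' (p, i, j)).toEmbedding) k q ↔ Missing S k q := by
  simp only [Missing, Finset.mem_map, Equiv.coe_toEmbedding, forall_exists_index, and_imp,
    forall_apply_eq_imp_iff₂]
  refine forall₂_congr fun u hu => not_congr ?_
  rw [Prod.ext_iff, Prod.ext_iff, tailSwap_col]
  refine and_congr_left fun h => ?_
  rw [tailSwap_lo (hi u hu) (hj u hu) (by simp only at h; omega)]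
  rcases u.1.1 with k' | _ | c <;> simp

theorem cls_map {S : Finset (Vert (nl m l s))} (h : ∃ q, Good S q) :
    cls (S.map (tailSwap l s σ σ' (cls S)).toEmbedding) = cls S := by
  obtain ⟨h1, h2, h3, h4⟩ := cls_spec h
  have hm : ∀ k q, q ≤ (cls S).1 →
      (Missing (S.map (tailSwap l s σ σ' (cls S)).toEmbedding) k q ↔ Missing S k q) :=
    fun k q hq => missing_map h3 h4 k hq
  set T := S.map (tailSwap l s σ σ' (cls S)).toEmbedding with hT
  have hg : ∀ q, q ≤ (cls S).1 → (Good T q ↔ Good S q) := by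
    intro q hq
    simp only [Good, hm _ q hq]
  have hp : (cls S).1 = sInf {q | Good S q} := rfl
  have hmem : Good S (cls S).1 := Nat.sInf_mem (s := {q | Good S q}) h
  have hinf : sInf {q | Good T q} = sInf {q | Good S q} := by
    have h5 : sInf {q | Good T q} ≤ (cls S).1 := Nat.sInf_le ((hg _ le_rfl).2 hmem)
    refine le_antisymm h5 (Nat.sInf_le ?_)
    exact (hg _ h5).1 (Nat.sInf_mem (s := {q | Good T q}) ⟨_, (hg _ le_rfl).2 hmem⟩)
  conv_rhs => unfold cls
  conv_lhs => unfold cls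
  rw [hinf]
  simp only [← hp, hm _ _ le_rfl]

theorem swappable (hl : 3 ≤ l) (hs : Perm.sign σ' = -Perm.sign σ) {t : ℕ} (ht : t < (m + 1) * l) :
    Swappable (sub (Dg σ) (nl m l s)) (sub (Dg σ') (nl m l s)) t := by
  have h3 := three_le_nl (m := m) s hl
  refine ⟨fun S => tailSwap l s σ σ' (cls S), ?_, ?_⟩
  · intro S T hS hT hST
    have h1 := cls_map (σ := σ) (σ' := σ') (exists_good S (hS ▸ ht))
    have h2 := cls_map (σ := σ) (σ' := σ') (exists_good T (hT ▸ ht))
    have h4 : cls S = cls T := by rw [← h1, ← h2]; exact congrArg cls hST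
    simp only [h4] at hST
    exact Finset.map_injective _ hST
  · intro S hS u hu w hw
    obtain ⟨h1, h2, h4, h5⟩ := cls_spec (exists_good S (hS ▸ ht))
    rw [sub_adj h3, sub_adj h3]
    exact or_congr (arc_tailSwap hs h1 h2 (h4 u hu) (h5 u hu) (h4 w hw) (h5 w hw))
      (arc_tailSwap hs h1 h2 (h4 w hw) (h5 w hw) (h4 u hu) (h5 u hu))

end

/-- The pair of graphs for `m + 2` rows of length `l` and `s` padding vertices. -/
theorem exists_pair (m l s n : ℕ) (hl : 3 ≤ l)
    (hn : n = (m + 2) * l + (s + 3 + 30 * (m + 2) * 2 ^ (m + 2))) :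
    ∃ G G' : SimpleGraph (Fin n), (∀ t < (m + 1) * l, Swappable G G' t) ∧
      (∃ (u : Fin n) (p : G.Walk u u), p.IsHamiltonianCycle) ∧
      ¬ ∃ (u : Fin n) (p : G'.Walk u u), p.IsHamiltonianCycle := by
  have : DecidableEq (Nd m) := Classical.decEq _
  have h3 := three_le_nl (m := m) s hl
  have hcard : Fintype.card (Vert (nl m l s)) = n := by
    rw [card_vert, Fintype.sum_sum_type, Fintype.sum_option, hn]
    simp [nl]
    ring
  let e := (Fintype.equivFinOfCardEq hcard).symm
  obtain ⟨f, v, hf, hr⟩ := exists_dg m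
  have hne : (0 : Fin (m + 2)) ≠ 1 := by simp
  have hs' : Perm.sign (Equiv.swap (0 : Fin (m + 2)) 1) = -Perm.sign (1 : Perm (Fin (m + 2))) := by
    simp [Perm.sign_swap hne]
  refine ⟨(sub (Dg 1) (nl m l s)).comap e, (sub (Dg (Equiv.swap 0 1)) (nl m l s)).comap e,
    fun t ht => (swappable hl hs' ht).comap e, (ham_comap e).2 (ham_of_directed h3 f hf v hr), ?_⟩
  rw [ham_comap e]
  rintro ⟨u, p, hp⟩
  obtain ⟨g, h1, h2, h4⟩ := directed_of_ham h3 hp
  simpa [Perm.sign_swap hne] using sign_of_dg g h1 h2 h4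

end Pool.Agent.P.MP_9d0e7f_co.Log
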